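import Pool.Agent.helper18.CWM.SpecB

set_option autoImplicit false

open Finset Filter Topology

namespace CWM

section
variable {V U : Type} [Fintype V] [DecidableEq V] [Fintype U]

/-- disagreement and the support -/
theorem GB_ind (hSUP : SUP_stmt) (D : Dyn V U) (d : ℕ) (hD : D.Ok d) (w : List (V × U)) (x : V) :
    ind (fl D w pl x ≠ fl D w mi x) = ind (supp D w x ≠ ∅) := by
  have h := (hSUP V U D d hD).2.2.1 w x
  exact ind_congr (not_congr h.symm)

theorem GB_supp_le (hANC : ANC_stmt) (D : Dyn V U) (d : ℕ) (hD : D.Ok d) (w : List (V × U)) (x : V) :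
    supp D w x ⊆ anc D w {x} := (hANC V U D d hD).2.2.2.2.1 w x

theorem GB_pow (N c : ℝ) (hN : 0 < N) (hc : 0 ≤ c) (m : ℕ) :
    (N + c) ^ m / N ^ m ≤ Real.exp (c * (m / N)) := by
  rw [← div_pow, add_div, div_self hN.ne']
  have h1 : 1 + c / N ≤ Real.exp (c / N) := by
    have := Real.add_one_le_exp (c / N)
    linarith
  have h2 : (1 + c / N) ^ m ≤ Real.exp (c / N) ^ m := pow_le_pow_left₀ (by positivity) h1 m
  refine h2.trans (le_of_eq ?_)
  rw [← Real.exp_nat_mul]
  congr 1
  field_simp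

theorem GB_card (D : Dyn V U) (d : ℕ) (hD : D.Ok d) (hANC : ANC_stmt) (w : List (V × U)) (x : V)
    (r : ℕ) : ((supp D w x).card : ℝ) ≤ (2 * (r : ℝ) + 1) ^ d * ind (supp D w x ≠ ∅) +
      (1 / 2) ^ (r + 1) * ∑ z ∈ anc D w {x}, (2 : ℝ) ^ D.ds x z := by
  have h0 : supp D w x = (supp D w x ∩ Bl D x r) ∪ (supp D w x \ Bl D x r) :=
    (sup_inf_sdiff (supp D w x) (Bl D x r)).symm
  have h1 : (supp D w x).card ≤ (supp D w x ∩ Bl D x r).card + (supp D w x \ Bl D x r).card := by
    have := Finset.card_union_le (supp D w x ∩ Bl D x r) (supp D w x \ Bl D x r)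
    rwa [← h0] at this
  have h2 : ((supp D w x ∩ Bl D x r).card : ℝ) ≤ (2 * (r : ℝ) + 1) ^ d * ind (supp D w x ≠ ∅) := by
    by_cases h : supp D w x = ∅
    · rw [h, ind_not (by simp)]
      simp
    · rw [ind_of h, mul_one]
      have h3 : (supp D w x ∩ Bl D x r).card ≤ (2 * r + 1) ^ d :=
        (Finset.card_le_card Finset.inter_subset_right).trans (hD.blc x r)
      exact_mod_cast h3
  have h3 : ((supp D w x \ Bl D x r).card : ℝ) ≤
      (1 / 2) ^ (r + 1) * ∑ z ∈ anc D w {x}, (2 : ℝ) ^ D.ds x z := by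
    rw [Finset.mul_sum]
    have h4 : ((supp D w x \ Bl D x r).card : ℝ) ≤ ∑ z ∈ supp D w x \ Bl D x r,
        (1 / 2) ^ (r + 1) * (2 : ℝ) ^ D.ds x z := by
      rw [Finset.card_eq_sum_ones, Nat.cast_sum]
      refine Finset.sum_le_sum fun z hz => ?_
      rw [Finset.mem_sdiff, mem_Bl, not_le] at hz
      have h5 : (2 : ℝ) ^ (r + 1) ≤ (2 : ℝ) ^ D.ds x z := pow_le_pow_right₀ (by norm_num) hz.2
      have h6 : ((1 : ℝ) / 2) ^ (r + 1) * 2 ^ (r + 1) = 1 := by
        rw [← mul_pow]
        norm_num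
      calc (((1 : ℕ) : ℝ)) = ((1 : ℝ) / 2) ^ (r + 1) * 2 ^ (r + 1) := by rw [h6, Nat.cast_one]
        _ ≤ _ := mul_le_mul_of_nonneg_left h5 (by positivity)
    refine h4.trans (Finset.sum_le_sum_of_subset_of_nonneg ?_ fun z _ _ => by positivity)
    exact Finset.sdiff_subset.trans (GB_supp_le hANC D d hD w x)
  have h5 : ((supp D w x).card : ℝ) ≤ ((supp D w x ∩ Bl D x r).card : ℝ) +
      ((supp D w x \ Bl D x r).card : ℝ) := by exact_mod_cast h1
  linarith

end

theorem GB (hSUP : SUP_stmt) (hANC : ANC_stmt) (hTL : TL_stmt) (hHOM : HOM_stmt) : GB_stmt := by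
  intro V U _ _ _ D d hD hH x
  have hN : 0 < (Fintype.card V : ℝ) := by
    have : 0 < Fintype.card V := Fintype.card_pos_iff.2 ⟨x⟩
    exact_mod_cast this
  have hcu : ((univ : Finset V).card : ℝ) = Fintype.card V := by rw [Finset.card_univ]
  have hds : D.ds x x = 0 := (hD.ds0 x x).2 rfl
  refine ⟨?_, ?_, ?_, ?_, ?_⟩
  · intro m r
    have h1 : GG D m x ≤ Ew D univ m fun w => (2 * (r : ℝ) + 1) ^ d * ind (fl D w pl x ≠ fl D w mi x) +
        (1 / 2) ^ (r + 1) * ∑ z ∈ anc D w {x}, (2 : ℝ) ^ D.ds x z := by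
      refine Ew_mono D hD.nu0 fun w _ _ => ?_
      rw [GB_ind hSUP D d hD]
      exact GB_card D d hD hANC w x r
    rw [Ew_add, Ew_smul, Ew_smul] at h1
    have h2 : (Ew D univ m fun w => ∑ z ∈ anc D w {x}, (2 : ℝ) ^ D.ds x z) ≤
        Real.exp (4 * d * (m / Fintype.card V)) := by
      have h3 := (hTL V U D d hD).1 univ {x} x m
      rw [Finset.sum_singleton, hds, pow_zero, mul_one] at h3
      unfold Ew
      refine (div_le_div_of_nonneg_right h3 (by positivity)).trans ?_
      rw [hcu]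
      exact GB_pow _ _ hN (by positivity) m
    refine h1.trans (add_le_add (le_of_eq rfl) ?_)
    exact mul_le_mul_of_nonneg_left h2 (by positivity)
  · intro m k
    have h1 : GG D (k + m) x ≤ Ew D univ k fun w => GG D m x * ((supp D w x).card : ℝ) := by
      show Ew D univ (k + m) (fun w => ((supp D w x).card : ℝ)) ≤ _
      rw [Ew_append]
      refine Ew_mono D hD.nu0 fun w _ _ => ?_
      have h2 : (Ew D univ m fun w' => ((supp D (w ++ w') x).card : ℝ)) ≤
          Ew D univ m fun w' => ∑ y ∈ supp D w x, ((supp D w' y).card : ℝ) := by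
        refine Ew_mono D hD.nu0 fun w' _ _ => ?_
        have h3 : (supp D (w ++ w') x).card ≤ ∑ y ∈ supp D w x, (supp D w' y).card := by
          refine (Finset.card_le_card ((hSUP V U D d hD).2.1 w w' x)).trans ?_
          exact Finset.card_biUnion_le
        exact_mod_cast h3
      refine h2.trans (le_of_eq ?_)
      rw [Ew_sum]
      have h4 : ∀ y ∈ supp D w x, (Ew D univ m fun w' => ((supp D w' y).card : ℝ)) = GG D m x :=
        fun y _ => (hHOM V U D hH m y x).2
      rw [Finset.sum_congr rfl h4, Finset.sum_const, nsmul_eq_mul, mul_comm]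
    rw [Ew_smul] at h1
    rw [mul_comm]
    exact h1
  · intro m k
    have h1 : uu D univ (k + m) x ≤ Ew D univ k fun w => uu D univ m x * ((supp D w x).card : ℝ) := by
      show Ew D univ (k + m) (fun w => ind (fl D w pl x ≠ fl D w mi x)) ≤ _
      rw [Ew_append]
      refine Ew_mono D hD.nu0 fun w _ _ => ?_
      have h2 : (Ew D univ m fun w' => ind (fl D (w ++ w') pl x ≠ fl D (w ++ w') mi x)) ≤
          Ew D univ m fun w' => ∑ y ∈ supp D w x, ind (fl D w' pl y ≠ fl D w' mi y) := by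
        refine Ew_mono D hD.nu0 fun w' _ _ => ?_
        rw [GB_ind hSUP D d hD]
        have e : ∀ y ∈ supp D w x, ind (fl D w' pl y ≠ fl D w' mi y) = ind (supp D w' y ≠ ∅) :=
          fun y _ => GB_ind hSUP D d hD w' y
        rw [Finset.sum_congr rfl e]
        refine le_trans (ind_mono ?_) (ind_exists_le (supp D w x) fun y => supp D w' y ≠ ∅)
        intro hne
        obtain ⟨z, hz⟩ := Finset.nonempty_iff_ne_empty.2 hne
        have h3 := (hSUP V U D d hD).2.1 w w' x hz
        obtain ⟨y, hy, hzy⟩ := Finset.mem_biUnion.1 h3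
        exact ⟨y, hy, Finset.nonempty_iff_ne_empty.1 ⟨z, hzy⟩⟩
      refine h2.trans (le_of_eq ?_)
      rw [Ew_sum]
      have h4 : ∀ y ∈ supp D w x, (Ew D univ m fun w' => ind (fl D w' pl y ≠ fl D w' mi y)) =
          uu D univ m x := fun y _ => (hHOM V U D hH m y x).1
      rw [Finset.sum_congr rfl h4, Finset.sum_const, nsmul_eq_mul, mul_comm]
    rw [Ew_smul] at h1
    rw [mul_comm]
    exact h1
  · intro m
    have h1 : GG D m x ≤ Ew D univ m fun w => ((anc D w {x}).card : ℝ) := by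
      refine Ew_mono D hD.nu0 fun w _ _ => ?_
      exact_mod_cast Finset.card_le_card (GB_supp_le hANC D d hD w x)
    refine h1.trans ?_
    have h3 := (hTL V U D d hD).2.1 univ {x} m
    rw [Finset.card_singleton, Nat.cast_one, mul_one] at h3
    unfold Ew
    refine (div_le_div_of_nonneg_right h3 (by positivity)).trans ?_
    rw [hcu]
    exact GB_pow _ _ hN (by positivity) m
  · intro m
    refine Ew_mono D hD.nu0 fun w _ _ => ?_
    rw [GB_ind hSUP D d hD]
    by_cases h : supp D w x = ∅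
    · rw [h, ind_not (by simp)]
      simp
    · rw [ind_of h]
      have h1 : 1 ≤ (supp D w x).card := Finset.card_pos.2 (Finset.nonempty_iff_ne_empty.2 h)
      exact_mod_cast h1

end CWM
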